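import Pool.Agent.Lib.helper21.Djr

set_option autoImplicit false

namespace Pool.Agent.Results.MP_d393fc_an.Converges

open Set MeasureTheory Filter Pool.Agent.Lib.Helper21.Djr

/-- The weighted canonical product converges uniformly on every compact set, to a limit without
zeros off the sequence. -/
theorem result (w : ℝ → ℝ) (e : ℤ) (he : e = 1 ∨ e = -1) (hc : ContinuousOn w (Ici 0))
    (hp : ∀ t, 0 ≤ t → 0 < w t) (ha : AntitoneOn w (Ici 0))
    (hi : ∀ n : ℕ, IntegrableOn (fun t => w t * t ^ n) (Ioi 0))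
    (T : ℝ) (T0 : 0 ≤ T) (hd : DifferentiableOn ℝ w (Ioi T))
    (hm : AntitoneOn (fun t => t * deriv w t / w t) (Ioi T))
    (a : ℕ → ℂ) (a0 : ∀ k, a k ≠ 0) (hs : Summable fun k => L w ‖a k‖) :
    (∀ k z, Summable (trm w e (a k) z)) ∧
    ∀ K : Set ℂ, IsCompact K → ∃ P : ℂ → ℂ,
      TendstoUniformlyOn (fun n z => ∏ k ∈ Finset.range n, A w e (a k) z) P atTop K ∧
      ∀ z ∈ K, (∀ k, z ≠ a k) → P z ≠ 0 :=
  have h : H w := ⟨hc, hp, ha, hi⟩
  ⟨fun k z => h.sum he (a0 k) z, fun _ hK => h.main T0 hd hm he a0 hs hK⟩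

end Pool.Agent.Results.MP_d393fc_an.Converges
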